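import Mathlib

/-!
MP_9bc572_co (helper634): which closure operations force an abundant element?

For every set `Φ` of Boolean operations we decide whether every finite family of sets closed under the
operations of `Φ` (and having a nonempty member) has an element in at least half of its members, except
when `Φ` consists of disjunctions and constants, with at least one disjunction of two or more
variables; in that case the question is equivalent to the union-closed sets conjecture.
-/

set_option autoImplicit false

namespace Pool.Agent.Helper634.BooleanOperations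

open Finset

/-- A Boolean operation with `k` arguments. -/
abbrev Op (k : ℕ) := (Fin k → Bool) → Bool

/-- `F` is closed under the Boolean operation `f`, applied elementwise: for members
`X 0, …, X (k - 1)` of `F`, the set of all `i` such that `f` is true on the truth values of
`i ∈ X j` is a member of `F`. -/
def ClosedUnder {n k : ℕ} (F : Finset (Finset (Fin n))) (f : Op k) : Prop :=
  ∀ X : Fin k → Finset (Fin n), (∀ j, X j ∈ F) →
    ({i | f (fun j => decide (i ∈ X j)) = true} : Finset (Fin n)) ∈ F

/-- `F` is closed under all operations of `Φ`. -/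
def Closed (Φ : Set (Σ k, Op k)) {n : ℕ} (F : Finset (Finset (Fin n))) : Prop :=
  ∀ g ∈ Φ, ClosedUnder F g.2

/-- Every finite family closed under `Φ`, with a nonempty member, has an element which lies in at
least half of the members. -/
def Abundance (Φ : Set (Σ k, Op k)) : Prop :=
  ∀ (n : ℕ) (F : Finset (Finset (Fin n))), Closed Φ F → (∃ X ∈ F, X.Nonempty) →
    ∃ i, F.card ≤ 2 * (F.filter (fun X => i ∈ X)).card

/-- The union-closed sets conjecture (the frozen statement `S10381`). -/
def UnionClosedConjecture : Prop :=
  ∀ A : Finset (Finset ℕ), (∀ X ∈ A, ∀ Y ∈ A, X ∪ Y ∈ A) → A ≠ {∅} →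
    ∃ i : ℕ, A.card ≤ 2 * (A.filter (fun X => i ∈ X)).card

/-- `f` is the disjunction of the variables in `S` (constantly false if `S` is empty). -/
def IsDisjOn {k : ℕ} (f : Op k) (S : Finset (Fin k)) : Prop :=
  ∀ x, f x = true ↔ ∃ j ∈ S, x j = true

/-- `f` is the conjunction of the variables in `S` (constantly true if `S` is empty). -/
def IsConjOn {k : ℕ} (f : Op k) (S : Finset (Fin k)) : Prop :=
  ∀ x, f x = true ↔ ∀ j ∈ S, x j = true

/-- `f` is constant. -/
def IsConst {k : ℕ} (f : Op k) : Prop := ∃ b, ∀ x, f x = b

/-- All operations in `Φ` are disjunctions of variables or constant, and at least one of them is the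
disjunction of at least two variables. -/
def OnlyUnions (Φ : Set (Σ k, Op k)) : Prop :=
  (∀ g ∈ Φ, (∃ S, IsDisjOn g.2 S) ∨ IsConst g.2) ∧ ∃ g ∈ Φ, ∃ S, 2 ≤ S.card ∧ IsDisjOn g.2 S

/-- Some operation in `Φ` is true at two disjoint vectors (not necessarily distinct), and some
operation in `Φ` is neither a conjunction of variables nor constant. -/
def Good (Φ : Set (Σ k, Op k)) : Prop :=
  (∃ g ∈ Φ, ∃ x y, (∀ j, x j = false ∨ y j = false) ∧ g.2 x = true ∧ g.2 y = true) ∧
    ∃ g ∈ Φ, (¬ ∃ S, IsConjOn g.2 S) ∧ ¬ IsConst g.2

/-! ### Ternary operations -/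

/-- ternary operations -/
abbrev T3 := Bool → Bool → Bool → Bool

/-- closure under a ternary operation -/
def Cl {n : ℕ} (F : Finset (Finset (Fin n))) (g : T3) : Prop :=
  ∀ X ∈ F, ∀ Y ∈ F, ∀ Z ∈ F,
    ({i | g (decide (i ∈ X)) (decide (i ∈ Y)) (decide (i ∈ Z)) = true} : Finset (Fin n)) ∈ F

section
variable {n : ℕ} {F : Finset (Finset (Fin n))}

theorem cl_x : Cl F (fun x _ _ => x) := by
  intro X hX Y hY Z hZ
  simpa using hX

theorem cl_y : Cl F (fun _ y _ => y) := by
  intro X hX Y hY Z hZ
  simpa using hY

theorem cl_z : Cl F (fun _ _ z => z) := by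
  intro X hX Y hY Z hZ
  simpa using hZ

theorem cl_comp {k : ℕ} {f : Op k} (hf : ClosedUnder F f) (a : Fin k → T3) (ha : ∀ j, Cl F (a j)) :
    Cl F (fun x y z => f (fun j => a j x y z)) := by
  intro X hX Y hY Z hZ
  have h := hf (fun j => ({i | a j (decide (i ∈ X)) (decide (i ∈ Y)) (decide (i ∈ Z)) = true} :
    Finset (Fin n))) (fun j => ha j X hX Y hY Z hZ)
  simpa using h

theorem cl_comp3 {g a b c : T3} (hg : Cl F g) (ha : Cl F a) (hb : Cl F b) (hc : Cl F c) :
    Cl F (fun x y z => g (a x y z) (b x y z) (c x y z)) := by
  intro X hX Y hY Z hZ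
  have h := hg _ (ha X hX Y hY Z hZ) _ (hb X hX Y hY Z hZ) _ (hc X hX Y hY Z hZ)
  simpa using h

/-! ### Three closure properties which give an abundant element -/

theorem half_of_le {i : Fin n}
    (h : (F.filter (fun X => i ∉ X)).card ≤ (F.filter (fun X => i ∈ X)).card) :
    F.card ≤ 2 * (F.filter (fun X => i ∈ X)).card := by
  have := Finset.card_filter_add_card_filter_not (s := F) (fun X => i ∈ X)
  omega

/-- closure under complements -/
theorem half_neg (h : Cl F (fun x _ _ => !x)) (hne : ∃ X ∈ F, X.Nonempty) :
    ∃ i, F.card ≤ 2 * (F.filter (fun X => i ∈ X)).card := by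
  obtain ⟨X0, hX0, i, hi⟩ := hne
  refine ⟨i, half_of_le ?_⟩
  refine Finset.card_le_card_of_injOn (fun X => Xᶜ) ?_ ?_
  · intro X hX
    simp only [coe_filter, Set.mem_ofPred_eq] at hX ⊢
    refine ⟨?_, by simpa using hX.2⟩
    have h1 := h X hX.1 X hX.1 X hX.1
    have h2 : ({i | (!decide (i ∈ X)) = true} : Finset (Fin n)) = Xᶜ := by
      ext j; simp
    rw [← h2]; exact h1
  · intro X _ Y _ hXY
    exact compl_injective hXY

/-- closure under the sum of three members -/
theorem half_xor (h : Cl F (fun x y z => xor x (xor y z))) (hne : ∃ X ∈ F, X.Nonempty) :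
    ∃ i, F.card ≤ 2 * (F.filter (fun X => i ∈ X)).card := by
  obtain ⟨X0, hX0, i, hi⟩ := hne
  refine ⟨i, half_of_le ?_⟩
  by_cases hY : ∃ Y ∈ F, i ∉ Y
  · obtain ⟨Y, hY, hiY⟩ := hY
    refine Finset.card_le_card_of_injOn
      (fun X => ({j | xor (decide (j ∈ X)) (xor (decide (j ∈ X0)) (decide (j ∈ Y))) = true} :
        Finset (Fin n))) ?_ ?_
    · intro X hX
      simp only [coe_filter, Set.mem_ofPred_eq] at hX ⊢
      refine ⟨h X hX.1 X0 hX0 Y hY, ?_⟩
      simp [hX.2, hi, hiY]
    · intro X _ X' _ hXX
      ext j
      have h1 := Finset.ext_iff.1 hXX j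
      simp only [mem_filter, mem_univ, true_and] at h1
      by_cases a : j ∈ X <;> by_cases b : j ∈ X' <;> by_cases c : j ∈ X0 <;>
        by_cases d : j ∈ Y <;> simp [a, b, c, d] at h1 ⊢
  · push Not at hY
    have : F.filter (fun X => i ∉ X) = ∅ := by
      apply Finset.filter_eq_empty_iff.2
      intro X hX
      simpa using hY X hX
    rw [this]; simp

/-- closure under `X ∪ (Y ∩ Z)` -/
theorem half_up (h : Cl F (fun x y z => x || (y && z))) (hne : ∃ X ∈ F, X.Nonempty) :
    ∃ i, F.card ≤ 2 * (F.filter (fun X => i ∈ X)).card := by
  have hcl : ∀ X ∈ F, ∀ Y ∈ F, ∀ Z ∈ F, X ∪ (Y ∩ Z) ∈ F := by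
    intro X hX Y hY Z hZ
    have h1 := h X hX Y hY Z hZ
    have h2 : ({i | (decide (i ∈ X) || (decide (i ∈ Y) && decide (i ∈ Z))) = true} :
        Finset (Fin n)) = X ∪ (Y ∩ Z) := by
      ext j; simp
    rwa [h2] at h1
  -- unions with intersections of members
  have hup : ∀ s : Finset (Finset (Fin n)), s.Nonempty → s ⊆ F → ∀ X ∈ F, X ∪ s.inf id ∈ F := by
    intro s hs
    induction s using Finset.induction_on with
    | empty => exact absurd hs (by simp)
    | insert a s ha ih =>
      intro hsub X hX
      have haF : a ∈ F := hsub (mem_insert_self _ _)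
      rcases s.eq_empty_or_nonempty with h0 | h0
      · subst h0
        have := hcl X hX a haF a haF
        simpa using this
      · have h1 := ih h0 (fun Y hY => hsub (mem_insert_of_mem hY)) X hX
        have h2 := hcl X hX _ h1 a haF
        have h3 : X ∪ (X ∪ s.inf id) ∩ a = X ∪ (insert a s).inf id := by
          rw [Finset.inf_insert]
          ext j
          simp only [mem_union, mem_inter, id, Finset.inf_eq_inter]
          tauto
        rwa [h3] at h2
  classical
  -- a minimal nonempty intersection of members
  obtain ⟨X0, hX0, hX0n⟩ := hne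
  have hS : ∃ s ∈ (F.powerset.filter (fun s => s.Nonempty ∧ (s.inf id).Nonempty)),
      ∀ s' ∈ (F.powerset.filter (fun s => s.Nonempty ∧ (s.inf id).Nonempty)),
      (s.inf id).card ≤ (s'.inf id).card := by
    apply Finset.exists_min_image
    refine ⟨{X0}, ?_⟩
    simp only [mem_filter, mem_powerset, singleton_subset_iff, singleton_nonempty, inf_singleton,
      id, true_and]
    exact ⟨hX0, hX0n⟩
  obtain ⟨s, hs, hmin⟩ := hS
  simp only [mem_filter, mem_powerset] at hs hmin
  obtain ⟨hsF, hsn, i, hi⟩ := hs
  set A := s.inf id with hA
  have hdich : ∀ W ∈ F, i ∉ W → W ∩ A = ∅ := by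
    intro W hW hiW
    by_contra hcon
    have h1 : (W ∩ A).Nonempty := Finset.nonempty_iff_ne_empty.2 hcon
    have h2 : (insert W s).inf id = W ∩ A := by
      rw [Finset.inf_insert]; rfl
    have h3 := hmin (insert W s) ⟨Finset.insert_subset hW hsF, Finset.insert_nonempty _ _,
      by rw [h2]; exact h1⟩
    rw [h2] at h3
    have h4 : W ∩ A = A := Finset.eq_of_subset_of_card_le Finset.inter_subset_right h3
    have h5 : i ∈ W ∩ A := by rw [h4]; exact hi
    exact hiW (Finset.mem_inter.1 h5).1
  refine ⟨i, half_of_le ?_⟩
  refine Finset.card_le_card_of_injOn (fun W => W ∪ A) ?_ ?_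
  · intro W hW
    simp only [coe_filter, Set.mem_ofPred_eq] at hW ⊢
    exact ⟨hup s hsn hsF W hW.1, Finset.mem_union_right _ hi⟩
  · intro W hW W' hW' hWW
    simp only [coe_filter, Set.mem_ofPred_eq] at hW hW'
    have h1 := hdich W hW.1 hW.2
    have h2 := hdich W' hW'.1 hW'.2
    ext j
    have h3 := Finset.ext_iff.1 hWW j
    have h4 := Finset.ext_iff.1 h1 j
    have h5 := Finset.ext_iff.1 h2 j
    simp only [mem_union, mem_inter, notMem_empty, iff_false] at h3 h4 h5
    tauto

/-! ### Clones -/

/-- one of the three closure properties -/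
def Key (F : Finset (Finset (Fin n))) : Prop :=
  Cl F (fun x _ _ => !x) ∨ Cl F (fun x y z => xor x (xor y z)) ∨ Cl F (fun x y z => x || (y && z))

theorem half_of_key (h : Key F) (hne : ∃ X ∈ F, X.Nonempty) :
    ∃ i, F.card ≤ 2 * (F.filter (fun X => i ∈ X)).card := by
  rcases h with h | h | h
  · exact half_neg h hne
  · exact half_xor h hne
  · exact half_up h hne

theorem Cl.congr {g g' : T3} (h : Cl F g) (e : ∀ x y z, g x y z = g' x y z) : Cl F g' := by
  have : g = g' := by funext x y z; exact e x y z
  rwa [← this]

theorem key_of_imp (h : Cl F (fun x y _ => !x || y)) : Key F := by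
  right; right
  have h1 := cl_comp3 h cl_z cl_x cl_x
  have h2 := cl_comp3 h cl_y h1 cl_x
  have h3 := cl_comp3 h h2 cl_x cl_x
  refine h3.congr ?_
  decide

theorem key_of_xnor (h : Cl F (fun x y _ => !(xor x y))) : Key F := by
  right; left
  have h1 := cl_comp3 h cl_y cl_z cl_x
  have h2 := cl_comp3 h cl_x h1 cl_x
  refine h2.congr ?_
  decide

/-- substitution of two ternary operations -/
theorem cl_two {k : ℕ} {f : Op k} (hf : ClosedUnder F f) (x : Fin k → Bool) {a b : T3}
    (ha : Cl F a) (hb : Cl F b) :
    Cl F (fun u v w => f (fun j => if x j = true then a u v w else b u v w)) := by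
  refine (cl_comp hf (fun j => if x j = true then a else b) ?_).congr ?_
  · intro j
    by_cases h : x j = true
    · simpa [h] using ha
    · simpa [h] using hb
  · intro u v w
    congr 1
    funext j
    by_cases h : x j = true <;> simp [h]

/-- substitution of three ternary operations -/
theorem cl_three {k : ℕ} {f : Op k} (hf : ClosedUnder F f) (x y : Fin k → Bool) {a b c : T3}
    (ha : Cl F a) (hb : Cl F b) (hc : Cl F c) :
    Cl F (fun u v w => f (fun j => if x j = true then a u v w else
      if y j = true then b u v w else c u v w)) := by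
  refine (cl_comp hf (fun j => if x j = true then a else if y j = true then b else c) ?_).congr ?_
  · intro j
    by_cases h : x j = true
    · simpa [h] using ha
    · by_cases h' : y j = true
      · simpa [h, h'] using hb
      · simpa [h, h'] using hc
  · intro u v w
    congr 1
    funext j
    by_cases h : x j = true <;> by_cases h' : y j = true <;> simp [h, h']

theorem key_of_zero {k : ℕ} {f : Op k} (hf : ClosedUnder F f) (h0 : f (fun _ => false) = true)
    (hc : ¬ IsConst f) : Key F := by
  by_cases h1 : f (fun _ => true) = true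
  · have hx : ∃ x, f x = false := by
      by_contra hcon
      push Not at hcon
      exact hc ⟨true, fun x => by simpa using hcon x⟩
    obtain ⟨x, hx⟩ := hx
    have hG := cl_two hf x cl_x cl_y
    have e00 : f (fun j => if x j = true then false else false) = true :=
      (congrArg f (by funext j; simp)).trans h0
    have e11 : f (fun j => if x j = true then true else true) = true :=
      (congrArg f (by funext j; simp)).trans h1
    have e10 : f (fun j => if x j = true then true else false) = false :=
      (congrArg f (by funext j; cases x j <;> simp)).trans hx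
    cases e01 : f (fun j => if x j = true then false else true) with
    | true =>
      apply key_of_imp
      refine hG.congr ?_
      intro u v w
      cases u <;> cases v <;> simp only [e00, e01, e10, e11] <;> rfl
    | false =>
      apply key_of_xnor
      refine hG.congr ?_
      intro u v w
      cases u <;> cases v <;> simp only [e00, e01, e10, e11] <;> rfl
  · left
    have hG := cl_comp hf (fun _ => fun x _ _ => x) (fun _ => cl_x)
    refine hG.congr ?_
    intro u v w
    cases u
    · exact h0
    · simpa using h1

/-- an operation which vanishes at `0` and is not a disjunction -/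
theorem not_disj {k : ℕ} {f : Op k} (h0 : f (fun _ => false) = false) (h : ¬ ∃ S, IsDisjOn f S) :
    ∃ x y : Fin k → Bool, (∀ j, x j = false ∨ y j = false) ∧
      f (fun j => x j || y j) ≠ (f x || f y) := by
  by_contra hcon
  push Not at hcon
  apply h
  classical
  refine ⟨Finset.univ.filter (fun j => f (fun i => decide (i = j)) = true), ?_⟩
  have key : ∀ s : Finset (Fin k), (f (fun i => decide (i ∈ s)) = true ↔
      ∃ j ∈ s, f (fun i => decide (i = j)) = true) := by
    intro s
    induction s using Finset.induction_on with
    | empty => simp [h0]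
    | insert a s ha ih =>
      have h1 := hcon (fun i => decide (i = a)) (fun i => decide (i ∈ s)) (by
        intro j
        by_cases hj : j = a
        · right; simp [hj, ha]
        · left; simp [hj])
      have h2 : (fun i => decide (i ∈ insert a s)) =
          (fun j => decide (j = a) || decide (j ∈ s)) := by
        funext i; simp
      rw [h2, h1, Bool.or_eq_true, ih]
      simp
  intro x
  have h2 := key (Finset.univ.filter (fun j => x j = true))
  have h3 : (fun i => decide (i ∈ Finset.univ.filter (fun j => x j = true))) = x := by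
    funext i; simp
  rw [h3] at h2
  rw [h2]
  simp only [mem_filter, mem_univ, true_and]
  constructor
  · rintro ⟨j, h4, h5⟩; exact ⟨j, h5, h4⟩
  · rintro ⟨j, h4, h5⟩; exact ⟨j, h5, h4⟩

/-- an operation which is true at `1` and is not a conjunction -/
theorem not_conj {k : ℕ} {f : Op k} (h1 : f (fun _ => true) = true) (h : ¬ ∃ S, IsConjOn f S) :
    ∃ x y : Fin k → Bool, (∀ j, x j = false ∨ y j = false) ∧
      f (fun j => !(x j || y j)) ≠ (f (fun j => !x j) && f (fun j => !y j)) := by
  have := not_disj (f := fun x => !f (fun j => !x j)) (by simpa using h1) (by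
    rintro ⟨S, hS⟩
    apply h
    refine ⟨S, fun x => ?_⟩
    have h2 := hS (fun j => !x j)
    simp only [Bool.not_not, Bool.not_eq_eq_eq_not, Bool.not_true] at h2
    constructor
    · intro h3 j hj
      by_contra h4
      have h5 : f x = false := h2.2 ⟨j, hj, by simpa using h4⟩
      rw [h3] at h5; simp at h5
    · intro h3
      by_contra h4
      obtain ⟨j, hj, h5⟩ := h2.1 (by simpa using h4)
      rw [h3 j hj] at h5; simp at h5)
  obtain ⟨x, y, h2, h3⟩ := this
  refine ⟨x, y, h2, fun h4 => h3 ?_⟩
  simp only [h4]
  simp

/-- with `∨` at hand -/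
theorem key_of_or {k : ℕ} {f : Op k} (hor : Cl F (fun x y _ => x || y)) (hf : ClosedUnder F f)
    (hc : ¬ IsConst f) (hd : ¬ ∃ S, IsDisjOn f S) : Key F := by
  cases h0 : f (fun _ => false) with
  | true => exact key_of_zero hf h0 hc
  | false =>
    obtain ⟨x, y, hxy, hne⟩ := not_disj h0 hd
    have hH := cl_three hf x y cl_y cl_z cl_x
    have hG := cl_comp3 hor cl_x hH cl_x
    have e00 : f (fun j => if x j = true then false else if y j = true then false else false) =
        false := (congrArg f (by funext j; simp)).trans h0
    have e10 : f (fun j => if x j = true then true else if y j = true then false else false) =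
        f x := congrArg f (by funext j; cases x j <;> simp)
    have e01 : f (fun j => if x j = true then false else if y j = true then true else false) =
        f y := congrArg f (by
          funext j
          rcases hxy j with h | h
          · cases h' : y j <;> simp [h]
          · cases h' : x j <;> simp [h])
    have e11 : f (fun j => if x j = true then true else if y j = true then true else false) =
        f (fun j => x j || y j) := congrArg f (by
          funext j
          cases x j <;> cases y j <;> simp)
    right; right
    rcases hx : f x with _ | _ <;> rcases hy : f y with _ | _ <;>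
      rcases hz : f (fun j => x j || y j) with _ | _ <;> rw [hx, hy, hz] at hne <;>
      simp only [Bool.or_false, Bool.or_true, Bool.or_self, ne_eq, not_true_eq_false] at hne <;>
      rw [hx] at e10 <;> rw [hy] at e01 <;> rw [hz] at e11
    · refine hG.congr ?_
      intro u v w
      cases u <;> cases v <;> cases w <;> (try simp only [e00, e01, e10, e11]) <;> rfl
    · have h1 := cl_comp3 hG cl_x cl_z cl_y
      have h2 := cl_comp3 hG cl_x h1 cl_y
      refine h2.congr ?_
      intro u v w
      cases u <;> cases v <;> cases w <;>
        (try simp only [e00, e01, e10, e11, Bool.true_or, Bool.false_or]) <;> rfl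
    · have h2 := cl_comp3 hG cl_x cl_y hG
      refine h2.congr ?_
      intro u v w
      cases u <;> cases v <;> cases w <;>
        (try simp only [e00, e01, e10, e11, Bool.true_or, Bool.false_or]) <;> rfl
    · have h1 := cl_comp3 hor cl_y cl_z cl_x
      have h2 := cl_comp3 hG cl_x h1 hG
      refine h2.congr ?_
      intro u v w
      cases u <;> cases v <;> cases w <;>
        (try simp only [e00, e01, e10, e11, Bool.true_or, Bool.false_or, Bool.or_false]) <;> rfl

/-- a ternary operation `h` with `h 0 0 0 = 0`, `h 1 0 0 = h 0 1 0 = 1` generates `∨` or the sum of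
three variables -/
theorem or_or_xor_of {h : T3} (hH : Cl F h) (h000 : h false false false = false)
    (h100 : h true false false = true) (h010 : h false true false = true) :
    Cl F (fun x y _ => x || y) ∨ Cl F (fun x y z => xor x (xor y z)) := by
  cases e : h true true true with
  | false =>
    have hz := cl_comp3 hH cl_x cl_x cl_x
    have hG := cl_comp3 hH cl_x cl_y hz
    cases b : h true true false with
    | true =>
      left
      refine hG.congr ?_
      intro u v w
      cases u <;> cases v <;> simp only [h000, h100, h010, e, b] <;> rfl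
    | false =>
      right
      have h1 := cl_comp3 hG cl_y cl_z cl_x
      have h2 := cl_comp3 hG cl_x h1 cl_x
      refine h2.congr ?_
      intro u v w
      cases u <;> cases v <;> cases w <;> simp only [h000, h100, h010, e, b] <;> rfl
  | true =>
    cases d : h false true true with
    | true =>
      left
      have h1 := cl_comp3 hH cl_x cl_y cl_y
      refine h1.congr ?_
      intro u v w
      cases u <;> cases v <;> simp only [h000, h100, e, d] <;> rfl
    | false =>
      cases c : h true false true with
      | true =>
        left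
        have h1 := cl_comp3 hH cl_x cl_y cl_x
        refine h1.congr ?_
        intro u v w
        cases u <;> cases v <;> simp only [h000, h010, e, c] <;> rfl
      | false =>
        cases a : h false false true with
        | true =>
          cases b : h true true false with
          | true =>
            left
            have h1 := cl_comp3 hH cl_x cl_x cl_y
            refine h1.congr ?_
            intro u v w
            cases u <;> cases v <;> simp only [h000, a, b, e] <;> rfl
          | false =>
            right
            refine hH.congr ?_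
            intro u v w
            cases u <;> cases v <;> cases w <;>
              simp only [h000, h100, h010, a, b, c, d, e] <;> rfl
        | false =>
          cases b : h true true false with
          | true =>
            right
            have h1 := cl_comp3 hH cl_x cl_y hH
            have h2 := cl_comp3 hH hH cl_z h1
            refine h2.congr ?_
            intro u v w
            cases u <;> cases v <;> cases w <;>
              simp only [h000, h100, h010, a, b, c, d, e] <;> rfl
          | false =>
            left
            have h1 := cl_comp3 hH cl_x cl_x cl_y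
            have h2 := cl_comp3 hH cl_x cl_y h1
            refine h2.congr ?_
            intro u v w
            cases u <;> cases v <;> simp only [h000, h100, h010, a, b, e] <;> rfl

theorem or_or_xor {k : ℕ} {f : Op k} (hf : ClosedUnder F f) (h0 : f (fun _ => false) = false)
    {x y : Fin k → Bool} (hxy : ∀ j, x j = false ∨ y j = false) (hx : f x = true)
    (hy : f y = true) :
    Cl F (fun x y _ => x || y) ∨ Cl F (fun x y z => xor x (xor y z)) := by
  refine or_or_xor_of (cl_three hf x y cl_x cl_y cl_z) ?_ ?_ ?_
  · exact (congrArg f (by funext j; simp)).trans h0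
  · exact (congrArg f (by funext j; cases x j <;> simp)).trans hx
  · refine (congrArg f ?_).trans hy
    funext j
    rcases hxy j with h | h
    · cases h' : y j <;> simp [h]
    · cases h' : x j <;> simp [h]

/-- with the constant `1` at hand -/
theorem key_of_one {k : ℕ} {f : Op k} (hone : Cl F (fun _ _ _ => true)) (hf : ClosedUnder F f)
    (hc : ¬ IsConst f) (hd : ¬ ∃ S, IsDisjOn f S) (hcj : ¬ ∃ S, IsConjOn f S) : Key F := by
  cases h0 : f (fun _ => false) with
  | true => exact key_of_zero hf h0 hc
  | false =>
    cases h1 : f (fun _ => true) with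
    | false =>
      have hx : ∃ x, f x = true := by
        by_contra hcon
        push Not at hcon
        exact hc ⟨false, fun x => by simpa using hcon x⟩
      obtain ⟨x, hx⟩ := hx
      left
      refine (cl_two hf x hone cl_x).congr ?_
      intro u v w
      cases u
      · exact (congrArg f (by funext j; cases x j <;> simp)).trans hx
      · exact (congrArg f (by funext j; cases x j <;> simp)).trans h1
    | true =>
      obtain ⟨x, y, hxy, hne⟩ := not_conj h1 hcj
      have hH := cl_three hf x y cl_x cl_y hone
      have e11 : f (fun j => if x j = true then true else if y j = true then true else true) =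
          true := (congrArg f (by funext j; simp)).trans h1
      have e01 : f (fun j => if x j = true then false else if y j = true then true else true) =
          f (fun j => !x j) := congrArg f (by funext j; cases x j <;> simp)
      have e10 : f (fun j => if x j = true then true else if y j = true then false else true) =
          f (fun j => !y j) := congrArg f (by
            funext j
            rcases hxy j with h | h
            · cases h' : y j <;> simp [h]
            · cases h' : x j <;> simp [h])
      have e00 : f (fun j => if x j = true then false else if y j = true then false else true) =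
          f (fun j => !(x j || y j)) := congrArg f (by
            funext j
            cases x j <;> cases y j <;> simp)
      rcases hx : f (fun j => !x j) with _ | _ <;> rcases hy : f (fun j => !y j) with _ | _ <;>
        rcases hz : f (fun j => !(x j || y j)) with _ | _ <;> rw [hx, hy, hz] at hne <;>
        simp only [Bool.and_false, Bool.and_true, Bool.and_self, ne_eq, not_true_eq_false] at hne <;>
        rw [hx] at e01 <;> rw [hy] at e10 <;> rw [hz] at e00
      · apply key_of_xnor
        refine hH.congr ?_
        intro u v w
        cases u <;> cases v <;> simp only [e00, e01, e10, e11] <;> rfl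
      · apply key_of_imp
        have h2 := cl_comp3 hH cl_y cl_x cl_x
        refine h2.congr ?_
        intro u v w
        cases u <;> cases v <;> simp only [e00, e01, e10, e11] <;> rfl
      · apply key_of_imp
        refine hH.congr ?_
        intro u v w
        cases u <;> cases v <;> simp only [e00, e01, e10, e11] <;> rfl
      · refine key_of_or ?_ hf hc hd
        refine hH.congr ?_
        intro u v w
        cases u <;> cases v <;> simp only [e00, e01, e10, e11] <;> rfl

/-! ### The positive part -/

theorem key_of_good {Φ : Set (Σ k, Op k)} (hF : Closed Φ F) (hg : Good Φ) (hu : ¬ OnlyUnions Φ) :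
    Key F := by
  obtain ⟨⟨g, hgΦ, x, y, hxy, hx, hy⟩, g', hg'Φ, hg'c, hg'n⟩ := hg
  have hor : Cl F (fun x y _ => x || y) → (∃ g ∈ Φ, ∃ S, 2 ≤ S.card ∧ IsDisjOn g.2 S) → Key F := by
    intro hor hp
    have h1 : ¬ ∀ g ∈ Φ, (∃ S, IsDisjOn g.2 S) ∨ IsConst g.2 := fun h => hu ⟨h, hp⟩
    push Not at h1
    obtain ⟨g₁, hg₁, h2, h3⟩ := h1
    exact key_of_or hor (hF g₁ hg₁) h3 (by push Not; exact h2)
  cases h0 : g.2 (fun _ => false) with
  | true =>
    by_cases hc : IsConst g.2
    · obtain ⟨b, hb⟩ := hc
      have hb1 : b = true := by rw [← hb, h0]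
      subst hb1
      have hone : Cl F (fun _ _ _ => true) := by
        refine (cl_comp (hF g hgΦ) (fun _ => fun x _ _ => x) (fun _ => cl_x)).congr ?_
        intro u v w
        exact hb _
      by_cases hd : ∃ S, IsDisjOn g'.2 S
      · obtain ⟨S, hS⟩ := hd
        rcases Nat.lt_or_ge S.card 2 with hlt | hge
        · exfalso
          rcases Nat.lt_or_ge S.card 1 with h1 | h1
          · have hS0 : S = ∅ := Finset.card_eq_zero.1 (by omega)
            apply hg'n
            refine ⟨false, fun z => ?_⟩
            have h2 := hS z
            rw [hS0] at h2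
            simpa using h2
          · obtain ⟨j, hj⟩ := Finset.card_eq_one.1 (show S.card = 1 by omega)
            apply hg'c
            refine ⟨{j}, fun z => ?_⟩
            rw [hS z, hj]
            simp
        · refine hor ?_ ⟨g', hg'Φ, S, hge, hS⟩
          obtain ⟨a, ha, b, hb', hab⟩ := Finset.one_lt_card.1 (show 1 < S.card by omega)
          have h3 := cl_two (hF g' hg'Φ) (fun j => decide (j = a)) (F := F) cl_x cl_y
          refine h3.congr ?_
          intro u v w
          rw [Bool.eq_iff_iff, hS]
          simp only [Bool.or_eq_true]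
          constructor
          · rintro ⟨j, -, h4⟩
            by_cases hj : j = a
            · left; simpa [hj] using h4
            · right; simpa [hj] using h4
          · rintro (h4 | h4)
            · exact ⟨a, ha, by simpa using h4⟩
            · exact ⟨b, hb', by simpa [hab.symm] using h4⟩
      · exact key_of_one hone (hF g' hg'Φ) hg'n hd hg'c
    · exact key_of_zero (hF g hgΦ) h0 hc
  | false =>
    rcases or_or_xor (hF g hgΦ) h0 hxy hx hy with h | h
    · by_cases hc : (∃ S, IsDisjOn g.2 S) ∨ IsConst g.2
      · refine hor h ⟨g, hgΦ, ?_⟩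
        rcases hc with ⟨S, hS⟩ | ⟨b, hb⟩
        · refine ⟨S, ?_, hS⟩
          obtain ⟨j, hj, hj'⟩ := (hS x).1 hx
          obtain ⟨i, hi, hi'⟩ := (hS y).1 hy
          have : j ≠ i := by
            rintro rfl
            rcases hxy j with h1 | h1
            · rw [h1] at hj'; simp at hj'
            · rw [h1] at hi'; simp at hi'
          exact Finset.one_lt_card.2 ⟨j, hj, i, hi, this⟩
        · rw [hb] at h0 hx
          rw [h0] at hx; simp at hx
      · push Not at hc
        exact key_of_or h (hF g hgΦ) hc.2 (by push Not; exact hc.1)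
    · right; left; exact h

theorem positive {Φ : Set (Σ k, Op k)} (hg : Good Φ) (hu : ¬ OnlyUnions Φ) : Abundance Φ :=
  fun _ _ hF hne => half_of_key (key_of_good hF hg hu) hne

/-! ### The negative part -/

theorem negative_one {Φ : Set (Σ k, Op k)}
    (h : ∀ g ∈ Φ, ∀ x y, (∀ j, x j = false ∨ y j = false) → ¬ (g.2 x = true ∧ g.2 y = true))
    (m : ℕ) : ∃ (n : ℕ) (F : Finset (Finset (Fin n))), Closed Φ F ∧ (∃ X ∈ F, X.Nonempty) ∧
      ∀ i, m * (F.filter (fun X => i ∈ X)).card ≤ F.card := by
  refine ⟨m + 1, Finset.univ.filter (fun X => X.card ≤ 1), ?_, ⟨{0}, by simp, by simp⟩, ?_⟩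
  · intro g hg X hX
    simp only [mem_filter, mem_univ, true_and] at hX ⊢
    apply Finset.card_le_one.2
    intro i hi i' hi'
    simp only [mem_filter, mem_univ, true_and] at hi hi'
    by_contra hne
    refine h g hg _ _ ?_ ⟨hi, hi'⟩
    intro j
    by_cases h1 : i ∈ X j
    · right
      have : i' ∉ X j := fun h2 => hne (Finset.card_le_one.1 (hX j) i h1 i' h2)
      simp [this]
    · left; simp [h1]
  · intro i
    have h1 : (Finset.univ.filter (fun X : Finset (Fin (m + 1)) => X.card ≤ 1)).filter
        (fun X => i ∈ X) = {{i}} := by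
      ext X
      simp only [mem_filter, mem_univ, true_and, mem_singleton]
      constructor
      · rintro ⟨h2, h3⟩
        exact Finset.eq_singleton_iff_unique_mem.2 ⟨h3, fun y hy => Finset.card_le_one.1 h2 _ hy _ h3⟩
      · rintro rfl; simp
    rw [h1, card_singleton, mul_one]
    have h2 : (Finset.univ.image (fun j : Fin (m + 1) => ({j} : Finset (Fin (m + 1))))) ⊆
        Finset.univ.filter (fun X : Finset (Fin (m + 1)) => X.card ≤ 1) := by
      intro X hX
      obtain ⟨j, -, rfl⟩ := Finset.mem_image.1 hX
      simp
    have h3 := Finset.card_le_card h2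
    rw [Finset.card_image_of_injective _ Finset.singleton_injective, Finset.card_univ,
      Fintype.card_fin] at h3
    omega

theorem negative_two {Φ : Set (Σ k, Op k)}
    (h : ∀ g ∈ Φ, (∃ S, IsConjOn g.2 S) ∨ IsConst g.2)
    (m : ℕ) : ∃ (n : ℕ) (F : Finset (Finset (Fin n))), Closed Φ F ∧ (∃ X ∈ F, X.Nonempty) ∧
      ∀ i, m * (F.filter (fun X => i ∈ X)).card ≤ F.card := by
  refine ⟨2 * m + 1, Finset.univ.filter (fun X => X.card ≤ 1 ∨ X = Finset.univ), ?_,
    ⟨{0}, by simp, by simp⟩, ?_⟩
  · intro g hg X hX
    simp only [mem_filter, mem_univ, true_and] at hX ⊢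
    rcases h g hg with ⟨S, hS⟩ | ⟨b, hb⟩
    · by_cases h1 : ∃ j ∈ S, (X j).card ≤ 1
      · left
        obtain ⟨j, hj, h2⟩ := h1
        refine le_trans (Finset.card_le_card ?_) h2
        intro i hi
        simp only [mem_filter, mem_univ, true_and] at hi
        simpa using (hS _).1 hi j hj
      · right
        push Not at h1
        ext i
        simp only [mem_filter, mem_univ, true_and, iff_true]
        rw [hS]
        intro j hj
        rcases hX j with h2 | h2
        · exact absurd h2 (by have := h1 j hj; omega)
        · simp [h2]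
    · cases b with
      | true => right; ext i; simp [hb]
      | false => left; simp [hb]
  · intro i
    have h1 : (Finset.univ.filter (fun X : Finset (Fin (2 * m + 1)) =>
        X.card ≤ 1 ∨ X = Finset.univ)).filter (fun X => i ∈ X) ⊆ {{i}, Finset.univ} := by
      intro X hX
      simp only [mem_filter, mem_univ, true_and, mem_insert, mem_singleton] at hX ⊢
      obtain ⟨h2 | h2, h3⟩ := hX
      · left
        exact Finset.eq_singleton_iff_unique_mem.2 ⟨h3, fun y hy => Finset.card_le_one.1 h2 _ hy _ h3⟩
      · right; exact h2
    have h1' := (Finset.card_le_card h1).trans Finset.card_le_two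
    have h2 : (Finset.univ.image (fun j : Fin (2 * m + 1) => ({j} : Finset (Fin (2 * m + 1))))) ⊆
        Finset.univ.filter (fun X : Finset (Fin (2 * m + 1)) => X.card ≤ 1 ∨ X = Finset.univ) := by
      intro X hX
      obtain ⟨j, -, rfl⟩ := Finset.mem_image.1 hX
      simp
    have h3 := Finset.card_le_card h2
    rw [Finset.card_image_of_injective _ Finset.singleton_injective, Finset.card_univ,
      Fintype.card_fin] at h3
    nlinarith

theorem negative {Φ : Set (Σ k, Op k)} (hg : ¬ Good Φ) (m : ℕ) :
    ∃ (n : ℕ) (F : Finset (Finset (Fin n))), Closed Φ F ∧ (∃ X ∈ F, X.Nonempty) ∧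
      ∀ i, m * (F.filter (fun X => i ∈ X)).card ≤ F.card := by
  by_cases h : ∃ g ∈ Φ, ∃ x y, (∀ j, x j = false ∨ y j = false) ∧ g.2 x = true ∧ g.2 y = true
  · have h2 : ¬ ∃ g ∈ Φ, (¬ ∃ S, IsConjOn g.2 S) ∧ ¬ IsConst g.2 := fun h2 => hg ⟨h, h2⟩
    apply negative_two
    intro g hg
    by_contra h3
    apply h2
    rw [not_or] at h3
    exact ⟨g, hg, h3⟩
  · apply negative_one
    intro g hg x y hxy hh
    exact h ⟨g, hg, x, y, hxy, hh⟩

/-! ### Disjunctions and constants -/

theorem union_mem {k : ℕ} {g : Op k} {S : Finset (Fin k)} (hS : IsDisjOn g S) (hc : 2 ≤ S.card)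
    (hF : ClosedUnder F g) {X Y : Finset (Fin n)} (hX : X ∈ F) (hY : Y ∈ F) : X ∪ Y ∈ F := by
  obtain ⟨a, ha, b, hb, hab⟩ := Finset.one_lt_card.1 (show 1 < S.card by omega)
  have h := hF (fun j => if j = a then X else Y) (by intro j; split_ifs <;> assumption)
  have h2 : ({i | g (fun j => decide (i ∈ if j = a then X else Y)) = true} : Finset (Fin n)) =
      X ∪ Y := by
    ext i
    simp only [mem_filter, mem_univ, true_and, mem_union]
    rw [hS]
    constructor
    · rintro ⟨j, -, h4⟩
      by_cases hj : j = a
      · left; simpa [hj] using h4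
      · right; simpa [hj] using h4
    · rintro (h4 | h4)
      · exact ⟨a, ha, by simpa using h4⟩
      · exact ⟨b, hb, by simpa [hab.symm] using h4⟩
  rwa [h2] at h

theorem conjecture_of_abundance {Φ : Set (Σ k, Op k)}
    (hU : ∀ g ∈ Φ, (∃ S, IsDisjOn g.2 S) ∨ IsConst g.2) (hA : Abundance Φ) :
    UnionClosedConjecture := by
  classical
  intro A hcl hne
  by_cases hA0 : A = ∅
  · exact ⟨0, by simp [hA0]⟩
  have hA1 : A.Nonempty := Finset.nonempty_iff_ne_empty.2 hA0
  obtain ⟨X0, hX0, hX0n⟩ : ∃ X ∈ A, X.Nonempty := by
    by_contra hcon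
    push Not at hcon
    apply hne
    exact Finset.eq_singleton_iff_nonempty_unique_mem.2 ⟨hA1, fun X hX => by simpa using hcon X hX⟩
  have hsup : ∀ s : Finset (Finset ℕ), s.Nonempty → s ⊆ A → s.sup id ∈ A := by
    intro s hs
    induction s using Finset.induction_on with
    | empty => exact absurd hs (by simp)
    | insert a s ha ih =>
      intro hsub
      rw [Finset.sup_insert]
      have haA : a ∈ A := hsub (mem_insert_self _ _)
      rcases s.eq_empty_or_nonempty with h0 | h0
      · subst h0; simpa using haA
      · exact hcl _ haA _ (ih h0 (fun Y hY => hsub (mem_insert_of_mem hY)))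
  set T := A.sup id with hT
  have hTA : T ∈ A := hsup A hA1 (Finset.Subset.refl _)
  have hle : ∀ X ∈ A, X ⊆ T := fun X hX => Finset.le_sup (f := id) hX
  set e := T.equivFin
  set φ : Finset ℕ → Finset (Fin T.card) :=
    fun X => Finset.univ.filter (fun i => ((e.symm i : T) : ℕ) ∈ X) with hφ
  set F : Finset (Finset (Fin T.card)) := insert ∅ (A.image φ) with hF
  have hFU : ∀ X ∈ F, ∀ Y ∈ F, X ∪ Y ∈ F := by
    intro X hX Y hY
    rw [hF, mem_insert, mem_image] at hX hY
    rcases hX with rfl | ⟨X, hX, rfl⟩
    · simp only [empty_union]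
      rw [hF, mem_insert, mem_image]; exact hY
    rcases hY with rfl | ⟨Y, hY, rfl⟩
    · simp only [union_empty]
      rw [hF, mem_insert, mem_image]; exact Or.inr ⟨X, hX, rfl⟩
    rw [hF, mem_insert, mem_image]
    right
    refine ⟨X ∪ Y, hcl X hX Y hY, ?_⟩
    ext i; simp [hφ]
  have hinj : Set.InjOn φ A := by
    intro X hX Y hY hXY
    ext t
    have h1 : ∀ t ∈ T, (t ∈ X ↔ t ∈ Y) := by
      intro t ht
      have := Finset.ext_iff.1 hXY (e ⟨t, ht⟩)
      simpa [hφ] using this
    constructor
    · intro h; exact (h1 t (hle X hX h)).1 h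
    · intro h; exact (h1 t (hle Y hY h)).2 h
  have hclosed : Closed Φ F := by
    intro g hg X hX
    rcases hU g hg with ⟨S, hS⟩ | ⟨b, hb⟩
    · have h1 : ({i | g.2 (fun j => decide (i ∈ X j)) = true} : Finset (Fin T.card)) =
          S.sup X := by
        ext i
        simp only [mem_filter, mem_univ, true_and, Finset.mem_sup]
        rw [hS]
        simp
      rw [h1]
      clear h1 hS
      induction S using Finset.induction_on with
      | empty => simp [hF]
      | insert a s ha ih =>
        rw [Finset.sup_insert]
        exact hFU _ (hX a) _ ih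
    · cases b with
      | true =>
        have h1 : ({i | g.2 (fun j => decide (i ∈ X j)) = true} : Finset (Fin T.card)) = φ T := by
          ext i; simp [hb, hφ]
        rw [h1, hF, mem_insert, mem_image]
        exact Or.inr ⟨T, hTA, rfl⟩
      | false =>
        have h1 : ({i | g.2 (fun j => decide (i ∈ X j)) = true} : Finset (Fin T.card)) = ∅ := by
          ext i; simp [hb]
        rw [h1, hF, mem_insert]
        exact Or.inl rfl
  have hX0F : ∃ X ∈ F, X.Nonempty := by
    refine ⟨φ X0, ?_, ?_⟩
    · rw [hF, mem_insert, mem_image]; exact Or.inr ⟨X0, hX0, rfl⟩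
    · obtain ⟨t, ht⟩ := hX0n
      exact ⟨e ⟨t, hle X0 hX0 ht⟩, by simp [hφ, ht]⟩
  obtain ⟨i, hi⟩ := hA _ F hclosed hX0F
  refine ⟨(e.symm i : T), ?_⟩
  have h1 : A.card ≤ F.card := by
    rw [← Finset.card_image_of_injOn hinj]
    exact Finset.card_le_card (Finset.subset_insert _ _)
  have h2 : (F.filter (fun X => i ∈ X)).card ≤
      (A.filter (fun X => ((e.symm i : T) : ℕ) ∈ X)).card := by
    refine le_trans (Finset.card_le_card ?_) (Finset.card_image_le (f := φ))
    intro X hX
    rw [mem_filter, hF, mem_insert, mem_image] at hX
    obtain ⟨rfl | ⟨X, hX, rfl⟩, h3⟩ := hX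
    · simp at h3
    · rw [mem_image]
      exact ⟨X, mem_filter.2 ⟨hX, by simpa [hφ] using h3⟩, rfl⟩
  omega

theorem abundance_of_conjecture {Φ : Set (Σ k, Op k)}
    (hU : ∃ g ∈ Φ, ∃ S, 2 ≤ S.card ∧ IsDisjOn g.2 S) (hC : UnionClosedConjecture) :
    Abundance Φ := by
  classical
  intro n F hF hne
  obtain ⟨g, hg, S, hc, hS⟩ := hU
  have hcl : ∀ X ∈ F, ∀ Y ∈ F, X ∪ Y ∈ F := fun X hX Y hY => union_mem hS hc (hF g hg) hX hY
  obtain ⟨X0, hX0, t, ht⟩ := hne
  set φ : Finset (Fin n) → Finset ℕ := fun X => X.map Fin.valEmbedding with hφ
  have hinj : Function.Injective φ := Finset.map_injective _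
  obtain ⟨i, hi⟩ := hC (F.image φ) (by
      intro X' hX' Y' hY'
      obtain ⟨X, hX, hXe⟩ := Finset.mem_image.1 hX'
      obtain ⟨Y, hY, hYe⟩ := Finset.mem_image.1 hY'
      rw [← hXe, ← hYe]
      refine Finset.mem_image.2 ⟨X ∪ Y, hcl X hX Y hY, ?_⟩
      simp only [hφ, Finset.map_union])
    (by
      intro h
      have h1 : φ X0 ∈ F.image φ := Finset.mem_image_of_mem _ hX0
      rw [h, Finset.mem_singleton] at h1
      have h2 : (t : ℕ) ∈ φ X0 := Finset.mem_map.2 ⟨t, ht, rfl⟩
      rw [h1] at h2; simp at h2)
  rw [Finset.card_image_of_injective _ hinj] at hi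
  have h0 : 0 < F.card := Finset.card_pos.2 ⟨X0, hX0⟩
  have h1 : 0 < ((F.image φ).filter (fun X => i ∈ X)).card := by omega
  obtain ⟨Y, hY⟩ := Finset.card_pos.1 h1
  rw [mem_filter, mem_image] at hY
  obtain ⟨⟨X, hX, rfl⟩, h2⟩ := hY
  obtain ⟨j, hj, rfl⟩ := Finset.mem_map.1 h2
  refine ⟨j, hi.trans ?_⟩
  have h3 : ((F.image φ).filter (fun X => Fin.valEmbedding j ∈ X)).card ≤
      (F.filter (fun X => j ∈ X)).card := by
    refine le_trans (Finset.card_le_card ?_) (Finset.card_image_le (f := φ))
    intro Y hY
    rw [mem_filter, mem_image] at hY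
    obtain ⟨⟨X, hX, rfl⟩, h2⟩ := hY
    rw [mem_image]
    refine ⟨X, mem_filter.2 ⟨hX, ?_⟩, rfl⟩
    exact (Finset.mem_map' _).1 h2
  omega

end

/-- the disjunction of two variables -/
def orOp : Op 2 := fun x => x 0 || x 1

/-- union-closed families closed under one more operation -/
theorem one_more {k : ℕ} (f : Op k) (hd : ¬ ∃ S, IsDisjOn f S) (hc : ¬ IsConst f) (n : ℕ)
    (F : Finset (Finset (Fin n))) (hU : ∀ X ∈ F, ∀ Y ∈ F, X ∪ Y ∈ F) (hf : ClosedUnder F f)
    (hne : ∃ X ∈ F, X.Nonempty) : ∃ i, F.card ≤ 2 * (F.filter (fun X => i ∈ X)).card := by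
  refine positive (Φ := {⟨2, orOp⟩, ⟨k, f⟩}) ⟨⟨⟨2, orOp⟩, by simp, ![true, false], ![false, true],
    ?_, rfl, rfl⟩, ⟨2, orOp⟩, by simp, ?_, ?_⟩ ?_ n F ?_ hne
  · intro j; fin_cases j <;> simp
  · rintro ⟨S, hS⟩
    have h1 := (hS ![true, false]).1 rfl
    have h2 := (hS ![false, true]).1 rfl
    have h3 : S = ∅ := by
      apply Finset.eq_empty_of_forall_notMem
      intro j hj
      have h4 := h1 j hj
      have h5 := h2 j hj
      fin_cases j <;> simp at h4 h5
    have h4 := (hS ![false, false]).2 (by simp [h3])
    simp [orOp] at h4
  · rintro ⟨b, hb⟩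
    have h1 := hb ![true, false]
    have h2 := hb ![false, false]
    simp only [orOp] at h1 h2
    rw [← h2] at h1
    simp at h1
  · rintro ⟨h, -⟩
    rcases h ⟨k, f⟩ (by simp) with h1 | h1
    · exact hd h1
    · exact hc h1
  · intro g hg
    simp only [Set.mem_insert_iff, Set.mem_singleton_iff] at hg
    rcases hg with rfl | rfl
    · intro X hX
      have h1 := hU _ (hX 0) _ (hX 1)
      have h2 : ({i | orOp (fun j => decide (i ∈ X j)) = true} : Finset (Fin n)) =
          X 0 ∪ X 1 := by
        ext i; simp [orOp]
      rw [h2]; exact h1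
    · exact hf

/-- **Classification of the Boolean closure operations.**

(0) Every finite union-closed family with a nonempty member, which is closed also under one Boolean
operation that is neither a disjunction of variables nor constant, has an element in at least half of
its members.

Let `Φ` be any set of Boolean operations (of any numbers of arguments).

(1) If `Φ` consists of disjunctions of variables and of constants, and contains the disjunction of at
least two variables, then the assertion that every finite `Φ`-closed family with a nonempty member has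
an element in at least half of its members is equivalent to the union-closed sets conjecture.

(2) In every other case the question is decided: if `Φ` is good, then every finite `Φ`-closed family
with a nonempty member has an element in at least half of its members; if `Φ` is not good, then for
every `m` there is a finite `Φ`-closed family with a nonempty member in which every element lies in at
most the fraction `1 / m` of the members. -/
theorem classification :
    (∀ (k : ℕ) (f : Op k), (¬ ∃ S, IsDisjOn f S) → ¬ IsConst f →
      ∀ (n : ℕ) (F : Finset (Finset (Fin n))), (∀ X ∈ F, ∀ Y ∈ F, X ∪ Y ∈ F) →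
        ClosedUnder F f → (∃ X ∈ F, X.Nonempty) →
          ∃ i, F.card ≤ 2 * (F.filter (fun X => i ∈ X)).card) ∧
    ∀ Φ : Set (Σ k, Op k),
      (OnlyUnions Φ → (Abundance Φ ↔ UnionClosedConjecture)) ∧
      (¬ OnlyUnions Φ → Good Φ → Abundance Φ) ∧
      (¬ OnlyUnions Φ → ¬ Good Φ → ∀ m : ℕ, ∃ (n : ℕ) (F : Finset (Finset (Fin n))),
        Closed Φ F ∧ (∃ X ∈ F, X.Nonempty) ∧
          ∀ i, m * (F.filter (fun X => i ∈ X)).card ≤ F.card) :=
  ⟨fun _ f hd hc n F hU hf hne => one_more f hd hc n F hU hf hne,
    fun _ => ⟨fun h => ⟨conjecture_of_abundance h.1, abundance_of_conjecture h.2⟩,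
      fun h hg => positive hg h, fun _ hg m => negative hg m⟩⟩

end Pool.Agent.Helper634.BooleanOperations
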